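import Mathlib.Analysis.Normed.Field.Ultra
import Mathlib.Analysis.Normed.Group.Ultra
import Mathlib.LinearAlgebra.FiniteDimensional.Lemmas
import Mathlib.LinearAlgebra.Dimension.Finrank
import Mathlib.Data.NNReal.Basic

/-!
# [H52 LG Sub] orthonormal bases of subspaces of `K ^ n`

`exists_onb`: every subspace `W` of `K ^ n` has a basis `e` and coordinates `f` with `e i (f j) = δ i j` and `‖e i j‖ ≤ 1`
(induction on the dimension: a vector `x` and a coordinate `j` where it is maximal, then the subspace `x j = 0` of `W`). So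
`‖∑ x i • e i‖ = max ‖x i‖`.
-/

set_option autoImplicit false

namespace Pool.Agent.H52.LG

open scoped NNReal

section

variable {K : Type} [NormedField K] {n : ℕ}

/-- the maximum norm -/
noncomputable def mx (x : Fin n → K) : ℝ≥0 := Finset.univ.sup fun i => ‖x i‖₊

theorem le_mx (x : Fin n → K) (i : Fin n) : ‖x i‖₊ ≤ mx x := Finset.le_sup (f := fun i => ‖x i‖₊) (Finset.mem_univ i)

theorem mx_le {x : Fin n → K} {c : ℝ≥0} : mx x ≤ c ↔ ∀ i, ‖x i‖₊ ≤ c :=
  ⟨fun h i => (le_mx x i).trans h, fun h => Finset.sup_le fun i _ => h i⟩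

theorem exists_mx {x : Fin n → K} (hx : x ≠ 0) : ∃ i, ‖x i‖₊ = mx x ∧ x i ≠ 0 := by
  obtain ⟨i0, hi0⟩ : ∃ i, x i ≠ 0 := by
    by_contra h
    push Not at h
    exact hx (funext h)
  obtain ⟨i, -, hi⟩ := Finset.exists_mem_eq_sup Finset.univ ⟨i0, Finset.mem_univ _⟩ (fun i => ‖x i‖₊)
  refine ⟨i, hi.symm, ?_⟩
  intro h
  have h1 := le_mx x i0
  have h2 : mx x = ‖x i‖₊ := hi
  rw [h2, h, nnnorm_zero] at h1
  exact hi0 (nnnorm_eq_zero.1 (le_antisymm h1 zero_le))

end

section

variable {K : Type} [NormedField K] [IsUltrametricDist K] {n : ℕ}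

theorem nnnorm_sum_le_of {ι : Type} (s : Finset ι) (g : ι → K) {c : ℝ≥0} (h : ∀ i ∈ s, ‖g i‖₊ ≤ c) :
    ‖∑ i ∈ s, g i‖₊ ≤ c := by
  classical
  induction s using Finset.induction_on with
  | empty => rw [Finset.sum_empty, nnnorm_zero]; exact zero_le
  | insert a s ha ih =>
    rw [Finset.sum_insert ha]
    refine (IsUltrametricDist.nnnorm_add_le_max _ _).trans (max_le (h a (Finset.mem_insert_self a s)) ?_)
    exact ih fun i hi => h i (Finset.mem_insert_of_mem hi)

/-- basis of a subspace with a unit matrix as a minor -/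
structure Onb {m : ℕ} (W : Submodule K (Fin n → K)) (e : Fin m → (Fin n → K)) (f : Fin m → Fin n) : Prop where
  mem : ∀ i, e i ∈ W
  one : ∀ i j, e i (f j) = if i = j then 1 else 0
  le : ∀ i j, ‖e i j‖₊ ≤ 1
  eq : ∀ x ∈ W, x = ∑ i, x (f i) • e i

theorem exists_onb (W : Submodule K (Fin n → K)) : ∃ (m : ℕ) (e : Fin m → (Fin n → K)) (f : Fin m → Fin n), Onb W e f := by
  suffices h : ∀ d : ℕ, ∀ W : Submodule K (Fin n → K), Module.finrank K W ≤ d →
      ∃ (m : ℕ) (e : Fin m → (Fin n → K)) (f : Fin m → Fin n), Onb W e f from h _ W le_rfl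
  intro d
  induction d with
  | zero =>
    intro W hW
    have h0 : W = ⊥ := Submodule.finrank_eq_zero.1 (Nat.le_zero.1 hW)
    refine ⟨0, Fin.elim0, Fin.elim0, ⟨fun i => i.elim0, fun i => i.elim0, fun i => i.elim0, ?_⟩⟩
    intro x hx
    rw [h0, Submodule.mem_bot] at hx
    rw [hx]
    simp
  | succ d ih =>
    intro W hW
    by_cases h0 : W = ⊥
    · refine ⟨0, Fin.elim0, Fin.elim0, ⟨fun i => i.elim0, fun i => i.elim0, fun i => i.elim0, ?_⟩⟩
      intro x hx
      rw [h0, Submodule.mem_bot] at hx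
      rw [hx]
      simp
    obtain ⟨x, hxW, hx0⟩ := Submodule.exists_mem_ne_zero_of_ne_bot h0
    obtain ⟨j, hj, hj0⟩ := exists_mx hx0
    set W' : Submodule K (Fin n → K) := W ⊓ LinearMap.ker (LinearMap.proj (R := K) (φ := fun _ : Fin n => K) j) with hW'
    have hmem : ∀ {z : Fin n → K}, z ∈ W' ↔ z ∈ W ∧ z j = 0 := by
      intro z
      rw [hW', Submodule.mem_inf, LinearMap.mem_ker, LinearMap.proj_apply]
    have hlt : W' < W := by
      refine lt_of_le_of_ne inf_le_left ?_
      intro h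
      rw [← h] at hxW
      exact hj0 (hmem.1 hxW).2
    have hfin : Module.finrank K W' < Module.finrank K W := Submodule.finrank_lt_finrank_of_lt hlt
    obtain ⟨m, e, f, he⟩ := ih W' (by omega)
    set y : Fin n → K := (x j)⁻¹ • x with hy
    have hyW : y ∈ W := W.smul_mem _ hxW
    have hyj : y j = 1 := by
      rw [hy, Pi.smul_apply, smul_eq_mul, inv_mul_cancel₀ hj0]
    have hyle : ∀ l, ‖y l‖₊ ≤ 1 := by
      intro l
      rw [hy, Pi.smul_apply, smul_eq_mul, nnnorm_mul, nnnorm_inv]
      have h1 := le_mx x l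
      rw [← hj] at h1
      have h2 : 0 < ‖x j‖₊ := nnnorm_pos.2 hj0
      calc ‖x j‖₊⁻¹ * ‖x l‖₊ ≤ ‖x j‖₊⁻¹ * ‖x j‖₊ := mul_le_mul_right h1 _
        _ = 1 := inv_mul_cancel₀ h2.ne'
    set e0 : Fin n → K := y - ∑ i, y (f i) • e i with he0
    have heW : ∀ i, e i ∈ W ∧ e i j = 0 := fun i => hmem.1 (he.mem i)
    have he0j : e0 j = 1 := by
      rw [he0, Pi.sub_apply, hyj, Finset.sum_apply]
      rw [Finset.sum_eq_zero]
      · rw [sub_zero]
      · intro i _
        rw [Pi.smul_apply, (heW i).2, smul_zero]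
    have he0f : ∀ k, e0 (f k) = 0 := by
      intro k
      rw [he0, Pi.sub_apply, Finset.sum_apply]
      rw [Finset.sum_eq_single k]
      · rw [Pi.smul_apply, he.one, if_pos rfl, smul_eq_mul, mul_one, sub_self]
      · intro i _ hik
        rw [Pi.smul_apply, he.one, if_neg hik, smul_zero]
      · intro h
        exact absurd (Finset.mem_univ k) h
    have he0W : e0 ∈ W := W.sub_mem hyW (W.sum_mem fun i _ => W.smul_mem _ (heW i).1)
    have he0le : ∀ l, ‖e0 l‖₊ ≤ 1 := by
      intro l
      rw [he0, Pi.sub_apply, sub_eq_add_neg]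
      refine (IsUltrametricDist.nnnorm_add_le_max _ _).trans (max_le (hyle l) ?_)
      rw [nnnorm_neg, Finset.sum_apply]
      refine nnnorm_sum_le_of _ _ fun i _ => ?_
      rw [Pi.smul_apply, smul_eq_mul, nnnorm_mul]
      exact mul_le_one' (hyle _) (he.le i l)
    refine ⟨m + 1, Fin.cons e0 e, Fin.cons j f, ⟨?_, ?_, ?_, ?_⟩⟩
    · intro i
      refine Fin.cases ?_ (fun i => ?_) i
      · exact he0W
      · exact (heW i).1
    · intro i k
      refine Fin.cases ?_ (fun i => ?_) i
      · refine Fin.cases ?_ (fun k => ?_) k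
        · rw [Fin.cons_zero, Fin.cons_zero, if_pos rfl]
          exact he0j
        · rw [Fin.cons_zero, Fin.cons_succ, if_neg (Fin.succ_ne_zero k).symm]
          exact he0f k
      · refine Fin.cases ?_ (fun k => ?_) k
        · rw [Fin.cons_zero, Fin.cons_succ, if_neg (Fin.succ_ne_zero i)]
          exact (heW i).2
        · rw [Fin.cons_succ, Fin.cons_succ, he.one]
          by_cases h : i = k
          · rw [if_pos h, if_pos (by rw [h])]
          · rw [if_neg h, if_neg fun h1 => h (Fin.succ_injective _ h1)]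
    · intro i l
      refine Fin.cases ?_ (fun i => ?_) i
      · rw [Fin.cons_zero]
        exact he0le l
      · rw [Fin.cons_succ]
        exact he.le i l
    · intro z hz
      have hz' : z - z j • e0 ∈ W' := by
        rw [hmem]
        refine ⟨W.sub_mem hz (W.smul_mem _ he0W), ?_⟩
        rw [Pi.sub_apply, Pi.smul_apply, he0j, smul_eq_mul, mul_one, sub_self]
      have h1 := he.eq _ hz'
      have h2 : ∀ i, (z - z j • e0) (f i) = z (f i) := by
        intro i
        rw [Pi.sub_apply, Pi.smul_apply, he0f, smul_zero, sub_zero]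
      rw [Fin.sum_univ_succ]
      simp only [Fin.cons_zero, Fin.cons_succ]
      have h3 : ∑ i, (z - z j • e0) (f i) • e i = ∑ i, z (f i) • e i := Finset.sum_congr rfl fun i _ => by rw [h2]
      rw [h3] at h1
      rw [← h1]
      abel

/-- the maximum norm in the coordinates of the basis -/
theorem Onb.mx_eq {m : ℕ} {W : Submodule K (Fin n → K)} {e : Fin m → (Fin n → K)} {f : Fin m → Fin n} (h : Onb W e f)
    (c : Fin m → K) : mx (∑ i, c i • e i) = mx c := by
  refine le_antisymm ?_ ?_
  · refine mx_le.2 fun l => ?_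
    rw [Finset.sum_apply]
    refine nnnorm_sum_le_of _ _ fun i _ => ?_
    rw [Pi.smul_apply, smul_eq_mul, nnnorm_mul]
    calc ‖c i‖₊ * ‖e i l‖₊ ≤ ‖c i‖₊ * 1 := mul_le_mul_right (h.le i l) _
      _ = ‖c i‖₊ := mul_one _
      _ ≤ mx c := le_mx c i
  · refine mx_le.2 fun k => ?_
    have h1 : (∑ i, c i • e i) (f k) = c k := by
      rw [Finset.sum_apply, Finset.sum_eq_single k]
      · rw [Pi.smul_apply, h.one, if_pos rfl, smul_eq_mul, mul_one]
      · intro i _ hik
        rw [Pi.smul_apply, h.one, if_neg hik, smul_zero]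
      · intro h
        exact absurd (Finset.mem_univ k) h
    have h2 := le_mx (∑ i, c i • e i) (f k)
    rwa [h1] at h2

theorem Onb.linearIndependent {m : ℕ} {W : Submodule K (Fin n → K)} {e : Fin m → (Fin n → K)} {f : Fin m → Fin n}
    (h : Onb W e f) : LinearIndependent K e := by
  rw [Fintype.linearIndependent_iff]
  intro c hc k
  have h1 := h.mx_eq c
  rw [hc] at h1
  have h2 : mx (0 : Fin n → K) = 0 := le_antisymm (mx_le.2 fun i => by rw [Pi.zero_apply, nnnorm_zero]) zero_le
  rw [h2] at h1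
  have h3 := le_mx c k
  rw [← h1] at h3
  exact nnnorm_eq_zero.1 (le_antisymm h3 zero_le)

theorem Onb.span_eq {m : ℕ} {W : Submodule K (Fin n → K)} {e : Fin m → (Fin n → K)} {f : Fin m → Fin n}
    (h : Onb W e f) : Submodule.span K (Set.range e) = W := by
  refine le_antisymm (Submodule.span_le.2 ?_) ?_
  · rintro _ ⟨i, rfl⟩
    exact h.mem i
  · intro x hx
    rw [h.eq x hx]
    exact Submodule.sum_mem _ fun i _ => Submodule.smul_mem _ _ (Submodule.subset_span ⟨i, rfl⟩)

theorem Onb.finrank_eq {m : ℕ} {W : Submodule K (Fin n → K)} {e : Fin m → (Fin n → K)} {f : Fin m → Fin n}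
    (h : Onb W e f) : Module.finrank K W = m := by
  rw [← h.span_eq, finrank_span_eq_card h.linearIndependent, Fintype.card_fin]

end

end Pool.Agent.H52.LG
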