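import Pool.Agent.H9.XM.Car
import Pool.Agent.H52.LG.Sub

/-!
# [H52 LG Adp] adapted bases of subspaces

For a subspace `W` of `K ^ n` and a norm `b` there is a basis `e` of `W` which is orthonormal for the maximum norm and orthogonal
for `b`, with `b (e i)` antitone.
-/

set_option autoImplicit false

namespace Pool.Agent.H52.LG

open Pool.Agent.H9.XM
open scoped NNReal

variable {K : Type} [NormedField K] [IsUltrametricDist K] {n : ℕ}

/-- orthogonal basis of `W` for the norm `b`, orthonormal for the maximum norm -/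
structure AdpS {m : ℕ} (W : Submodule K (Fin n → K)) (b : (Fin n → K) → ℝ≥0) (e : Fin m → (Fin n → K)) : Prop where
  mem : ∀ i, e i ∈ W
  ex : ∀ x ∈ W, ∃ c : Fin m → K, x = ∑ i, c i • e i
  mx : ∀ c : Fin m → K, mx (∑ i, c i • e i) = mx c
  nrm : ∀ c : Fin m → K, b (∑ i, c i • e i) = Finset.univ.sup fun i => ‖c i‖₊ * b (e i)
  anti : ∀ i j, i ≤ j → b (e j) ≤ b (e i)

theorem mx_vecMul_le {m : ℕ} {B : Matrix (Fin m) (Fin m) K} (hB : IsInt B) (c : Fin m → K) :
    mx (Matrix.vecMul c B) ≤ mx c := by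
  refine mx_le.2 fun j => ?_
  show ‖∑ i, c i * B i j‖₊ ≤ mx c
  refine nnnorm_sum_le_of _ _ fun i _ => ?_
  rw [nnnorm_mul]
  calc ‖c i‖₊ * ‖B i j‖₊ ≤ ‖c i‖₊ * 1 := mul_le_mul_right (hB i j) _
    _ = ‖c i‖₊ := mul_one _
    _ ≤ mx c := le_mx c i

theorem mx_vecMul {m : ℕ} {B : Matrix (Fin m) (Fin m) K} (hB : GO B) (c : Fin m → K) : mx (Matrix.vecMul c B) = mx c := by
  refine le_antisymm (mx_vecMul_le hB.int c) ?_
  have h1 := mx_vecMul_le hB.inv.int (Matrix.vecMul c B)
  rwa [Matrix.vecMul_vecMul, Matrix.mul_nonsing_inv B hB.isUnit, Matrix.vecMul_one] at h1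

theorem IsNrm.pos_iff {b : (Fin n → K) → ℝ≥0} (hb : IsNrm b) : b 0 = 0 := by
  have := hb.smul 0 0
  rwa [smul_zero, nnnorm_zero, zero_mul] at this

theorem exists_adpS [ProperSpace K] (W : Submodule K (Fin n → K)) {b : (Fin n → K) → ℝ≥0} (hb : IsNrm b) :
    ∃ (m : ℕ) (e : Fin m → (Fin n → K)), AdpS W b e := by
  obtain ⟨m, e0, f, h0⟩ := exists_onb W
  set b0 : (Fin m → K) → ℝ≥0 := fun c => b (∑ i, c i • e0 i) with hb0
  have hN : IsNrm b0 := by
    refine ⟨?_, ?_, ?_⟩
    · intro x y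
      have h1 : ∑ i, (x + y) i • e0 i = ∑ i, x i • e0 i + ∑ i, y i • e0 i := by
        rw [← Finset.sum_add_distrib]
        exact Finset.sum_congr rfl fun i _ => by rw [Pi.add_apply, add_smul]
      show b (∑ i, (x + y) i • e0 i) ≤ _
      rw [h1]
      exact hb.add _ _
    · intro c x
      have h1 : ∑ i, (c • x) i • e0 i = c • ∑ i, x i • e0 i := by
        rw [Finset.smul_sum]
        exact Finset.sum_congr rfl fun i _ => by rw [Pi.smul_apply, smul_eq_mul, mul_smul]
      show b (∑ i, (c • x) i • e0 i) = _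
      rw [h1]
      exact hb.smul _ _
    · intro x hx
      refine hb.pos _ ?_
      intro h
      have h1 := h0.mx_eq x
      rw [h] at h1
      have h2 : mx (0 : Fin n → K) = 0 := le_antisymm (mx_le.2 fun i => by rw [Pi.zero_apply, nnnorm_zero]) zero_le
      rw [h2] at h1
      refine hx (funext fun k => ?_)
      have h3 := le_mx x k
      rw [← h1] at h3
      exact nnnorm_eq_zero.1 (le_antisymm h3 zero_le)
  obtain ⟨B, hB, hanti, hBx⟩ := exists_sorted hN
  have key : ∀ c : Fin m → K, ∑ i, c i • (∑ j, B i j • e0 j) = ∑ j, (Matrix.vecMul c B) j • e0 j := by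
    intro c
    have : ∀ j, (Matrix.vecMul c B) j = ∑ i, c i * B i j := fun j => rfl
    simp only [this, Finset.sum_smul, Finset.smul_sum, mul_smul]
    rw [Finset.sum_comm]
  have hbe : ∀ i, b (∑ j, B i j • e0 j) = b0 (B i) := fun i => rfl
  refine ⟨m, fun i => ∑ j, B i j • e0 j, ⟨?_, ?_, ?_, ?_, ?_⟩⟩
  · exact fun i => W.sum_mem fun j _ => W.smul_mem _ (h0.mem j)
  · intro x hx
    refine ⟨Matrix.vecMul (fun i => x (f i)) B⁻¹, ?_⟩
    rw [key, Matrix.vecMul_vecMul, Matrix.nonsing_inv_mul B hB.isUnit, Matrix.vecMul_one]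
    exact h0.eq x hx
  · intro c
    rw [key, h0.mx_eq, mx_vecMul hB]
  · intro c
    rw [key]
    exact hBx c
  · intro i j hij
    exact hanti i j hij

end Pool.Agent.H52.LG
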